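import Mathlib

set_option autoImplicit false

/-!
# The family of graphs: 16 classes of size `N`, a perfect matching between any two classes
-/

namespace Q43.SepDim

open Finset

/-- pairs of classes -/
abbrev Pr := {p : Fin 16 × Fin 16 // p.1 < p.2}

/-- the graph -/
def Gr {N : ℕ} (ρ : Pr → Equiv.Perm (Fin N)) : SimpleGraph (Fin 16 × Fin N) where
  Adj u v := (∃ h : u.1 < v.1, ρ ⟨(u.1, v.1), h⟩ u.2 = v.2) ∨
    (∃ h : v.1 < u.1, ρ ⟨(v.1, u.1), h⟩ v.2 = u.2)
  symm := ⟨fun _ _ h => h.symm⟩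
  loopless := ⟨fun u h => by
    rcases h with ⟨h, -⟩ | ⟨h, -⟩
    · exact lt_irrefl _ h
    · exact lt_irrefl _ h⟩

variable {N : ℕ} (ρ : Pr → Equiv.Perm (Fin N))

/-- the key of type A: the index of the neighbour in class `i`. -/
def kap (i : Fin 16) (u : Fin 16 × Fin N) : Fin N :=
  if h : i < u.1 then (ρ ⟨(i, u.1), h⟩).symm u.2
  else if h : u.1 < i then ρ ⟨(u.1, i), h⟩ u.2 else u.2

lemma kap_self (u : Fin 16 × Fin N) : kap ρ u.1 u = u.2 := by
  unfold kap
  rw [dif_neg (lt_irrefl _), dif_neg (lt_irrefl _)]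

lemma kap_adj {u v : Fin 16 × Fin N} (h : (Gr ρ).Adj u v) : kap ρ u.1 v = u.2 := by
  unfold kap
  rcases h with ⟨h, he⟩ | ⟨h, he⟩
  · rw [dif_pos h, ← he, Equiv.symm_apply_apply]
  · rw [dif_neg (not_lt.mpr h.le), dif_pos h, he]

/-- A linear ordering refining a key. -/
lemma exists_order {V : Type*} [Fintype V] (κ : V → ℕ) :
    ∃ e : V ≃ Fin (Fintype.card V), ∀ u v, κ u < κ v → e u < e v := by
  classical
  set c := Fintype.card V with hc
  let e₀ := Fintype.equivFin V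
  let f : V → ℕ := fun u => κ u * c + e₀ u
  have hf : Function.Injective f := by
    intro u v h
    have h1 : (e₀ u : ℕ) < c := (e₀ u).2
    have h2 : (e₀ v : ℕ) < c := (e₀ v).2
    have h3 : f u % c = f v % c := by rw [h]
    simp only [f] at h3
    rw [Nat.mul_add_mod', Nat.mul_add_mod', Nat.mod_eq_of_lt h1, Nat.mod_eq_of_lt h2] at h3
    exact e₀.injective (Fin.ext h3)
  letI : LinearOrder V := LinearOrder.lift' f hf
  let e := (Fintype.orderIsoFinOfCardEq V hc.symm).symm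
  refine ⟨e.toEquiv, ?_⟩
  intro u v huv
  have h1 : f u < f v := by
    have h1 : (e₀ u : ℕ) < c := (e₀ u).2
    simp only [f]
    nlinarith
  have h2 : u < v := h1
  exact e.strictMono h2

/-- disjoint edges -/
def Disj {V : Type*} (a b c d : V) : Prop := a ≠ c ∧ a ≠ d ∧ b ≠ c ∧ b ≠ d

/-- key of type B -/
def kapB (i j : Fin 16) (u : Fin 16 × Fin N) : ℕ := if u.1 = i ∨ u.1 = j then 0 else 1

lemma exists_key {a b c d : Fin 16 × Fin N} (hab : (Gr ρ).Adj a b) (hcd : (Gr ρ).Adj c d)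
    (h : Disj a b c d) :
    (∃ i : Fin 16, (∀ u ∈ ({a, b} : Set (Fin 16 × Fin N)), ∀ v ∈ ({c, d} : Set (Fin 16 × Fin N)),
        (kap ρ i u : ℕ) < kap ρ i v) ∨
      (∀ u ∈ ({a, b} : Set (Fin 16 × Fin N)), ∀ v ∈ ({c, d} : Set (Fin 16 × Fin N)),
        (kap ρ i v : ℕ) < kap ρ i u)) ∨
    ∃ i j : Fin 16, ∀ u ∈ ({a, b} : Set (Fin 16 × Fin N)), ∀ v ∈ ({c, d} : Set (Fin 16 × Fin N)),
        kapB i j u < kapB i j v := by
  obtain ⟨h1, h2, h3, h4⟩ := h
  have main : ∀ a b c d : Fin 16 × Fin N, (Gr ρ).Adj a b → (Gr ρ).Adj c d → a ≠ c → a.1 = c.1 →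
      (∃ i : Fin 16, (∀ u ∈ ({a, b} : Set (Fin 16 × Fin N)), ∀ v ∈ ({c, d} : Set (Fin 16 × Fin N)),
        (kap ρ i u : ℕ) < kap ρ i v) ∨
      (∀ u ∈ ({a, b} : Set (Fin 16 × Fin N)), ∀ v ∈ ({c, d} : Set (Fin 16 × Fin N)),
        (kap ρ i v : ℕ) < kap ρ i u)) := by
    intro a b c d hab hcd hac hcl
    refine ⟨a.1, ?_⟩
    have e1 : kap ρ a.1 a = a.2 := kap_self ρ a
    have e2 : kap ρ a.1 b = a.2 := kap_adj ρ hab
    have e3 : kap ρ a.1 c = c.2 := by rw [hcl]; exact kap_self ρ c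
    have e4 : kap ρ a.1 d = c.2 := by rw [hcl]; exact kap_adj ρ hcd
    have hne : (a.2 : ℕ) ≠ c.2 := by
      intro h
      exact hac (Prod.ext hcl (Fin.ext h))
    simp only [Set.mem_insert_iff, Set.mem_singleton_iff, forall_eq_or_imp, forall_eq, e1, e2, e3, e4,
      and_self]
    omega
  have swap1 : ({b, a} : Set (Fin 16 × Fin N)) = {a, b} := Set.pair_comm _ _
  have swap2 : ({d, c} : Set (Fin 16 × Fin N)) = {c, d} := Set.pair_comm _ _
  by_cases hac : a.1 = c.1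
  · exact Or.inl (main a b c d hab hcd h1 hac)
  by_cases had : a.1 = d.1
  · have := main a b d c hab hcd.symm h2 had
    rw [swap2] at this
    exact Or.inl this
  by_cases hbc : b.1 = c.1
  · have := main b a c d hab.symm hcd h3 hbc
    rw [swap1] at this
    exact Or.inl this
  by_cases hbd : b.1 = d.1
  · have := main b a d c hab.symm hcd.symm h4 hbd
    rw [swap1, swap2] at this
    exact Or.inl this
  right
  refine ⟨a.1, b.1, ?_⟩
  simp only [Set.mem_insert_iff, Set.mem_singleton_iff, forall_eq_or_imp, forall_eq, kapB]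
  simp [Ne.symm hac, Ne.symm had, Ne.symm hbc, Ne.symm hbd]

end Q43.SepDim
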