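import Mathlib
import Pool.Agent.Q43.SepDim.Graph

set_option autoImplicit false

/-!
# For fixed orders only few graphs of the family are suitable
-/

namespace Q43.SepDim

open Finset

lemma lev_ex (p q : ℕ) : ∃ l, p / 2 ^ l = q / 2 ^ l := by
  refine ⟨p + q, ?_⟩
  have h1 : p < 2 ^ (p + q) := lt_of_lt_of_le Nat.lt_two_pow_self
    (Nat.pow_le_pow_right (by norm_num) (by omega))
  have h2 : q < 2 ^ (p + q) := lt_of_lt_of_le Nat.lt_two_pow_self
    (Nat.pow_le_pow_right (by norm_num) (by omega))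
  rw [Nat.div_eq_of_lt h1, Nat.div_eq_of_lt h2]

/-- the dyadic split level of two positions -/
def lev (p q : ℕ) : ℕ := Nat.find (lev_ex p q)

lemma lev_spec (p q : ℕ) : p / 2 ^ (lev p q) = q / 2 ^ (lev p q) := Nat.find_spec (lev_ex p q)

lemma lev_min {p q l : ℕ} (h : l < lev p q) : p / 2 ^ l ≠ q / 2 ^ l := Nat.find_min (lev_ex p q) h

lemma lev_le {p q l : ℕ} (h : p / 2 ^ l = q / 2 ^ l) : lev p q ≤ l := Nat.find_min' (lev_ex p q) h

lemma lev_comm (p q : ℕ) : lev p q = lev q p := by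
  apply le_antisymm
  · exact lev_le (lev_spec q p).symm
  · exact lev_le (lev_spec p q).symm

lemma lev_le_of_lt {p q M : ℕ} (hp : p < 2 ^ M) (hq : q < 2 ^ M) : lev p q ≤ M := by
  apply lev_le
  rw [Nat.div_eq_of_lt hp, Nat.div_eq_of_lt hq]

lemma mid {p q : ℕ} (h : p ≠ q) : ∃ l', lev p q = l' + 1 ∧
    ((p < (2 * (p / 2 ^ (l'+1)) + 1) * 2 ^ l' ∧ (2 * (p / 2 ^ (l'+1)) + 1) * 2 ^ l' ≤ q) ∨
     (q < (2 * (p / 2 ^ (l'+1)) + 1) * 2 ^ l' ∧ (2 * (p / 2 ^ (l'+1)) + 1) * 2 ^ l' ≤ p)) := by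
  have h0 : lev p q ≠ 0 := by
    intro h0
    have := lev_spec p q
    rw [h0, pow_zero, Nat.div_one, Nat.div_one] at this
    exact h this
  obtain ⟨l', hl'⟩ := Nat.exists_eq_succ_of_ne_zero h0
  refine ⟨l', hl', ?_⟩
  have h1 : p / 2 ^ l' ≠ q / 2 ^ l' := lev_min (by omega)
  have h2 := lev_spec p q
  rw [hl', Nat.succ_eq_add_one] at h2
  have hpos : 0 < 2 ^ l' := by positivity
  rw [← Nat.div_lt_iff_lt_mul hpos, ← Nat.div_lt_iff_lt_mul hpos,
    ← Nat.le_div_iff_mul_le hpos, ← Nat.le_div_iff_mul_le hpos]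
  have h3 : p / 2 ^ (l' + 1) = p / 2 ^ l' / 2 := by
    rw [Nat.div_div_eq_div_mul, pow_succ]
  have h4 : q / 2 ^ (l' + 1) = q / 2 ^ l' / 2 := by
    rw [Nat.div_div_eq_div_mul, pow_succ]
  rw [h3, h4] at h2
  rw [h3]
  omega

lemma not_sep {p q r s : ℕ} (hpq : p ≠ q) (hrs : r ≠ s) (h1 : lev p q = lev r s)
    (h2 : p / 2 ^ (lev p q) = r / 2 ^ (lev p q)) :
    ¬ ((p < r ∧ p < s ∧ q < r ∧ q < s) ∨ (r < p ∧ s < p ∧ r < q ∧ s < q)) := by
  obtain ⟨l, hl, hm⟩ := mid hpq
  obtain ⟨l', hl', hm'⟩ := mid hrs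
  have hll : l' = l := by omega
  subst hll
  rw [hl] at h2
  rw [← h2] at hm'
  omega

variable {N t : ℕ}

/-- the graph is suitable for the `t` orders -/
def Suit (ρ : Pr → Equiv.Perm (Fin N)) (pos : Fin t → (Fin 16 × Fin N) → ℕ) : Prop :=
  ∀ a b c d, (Gr ρ).Adj a b → (Gr ρ).Adj c d → Disj a b c d → ∃ s : Fin t,
    (pos s a < pos s c ∧ pos s a < pos s d ∧ pos s b < pos s c ∧ pos s b < pos s d) ∨
    (pos s c < pos s a ∧ pos s d < pos s a ∧ pos s c < pos s b ∧ pos s d < pos s b)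

/-- the code -/
def code (pos : Fin t → (Fin 16 × Fin N) → ℕ) (ρ : Pr → Equiv.Perm (Fin N)) :
    Pr → Bool → Fin N → Fin t → ℕ := fun p β x s =>
  if β then lev (pos s (p.1.1, x)) (pos s (p.1.2, ρ p x))
  else lev (pos s (p.1.2, x)) (pos s (p.1.1, (ρ p).symm x))

lemma code_inj {pos : Fin t → (Fin 16 × Fin N) → ℕ} (hpos : ∀ s, Function.Injective (pos s))
    {ρ ρ' : Pr → Equiv.Perm (Fin N)} (hρ : Suit ρ pos) (h : code pos ρ = code pos ρ') :
    ρ = ρ' := by
  by_contra hne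
  obtain ⟨p, hp⟩ := Function.ne_iff.mp hne
  obtain ⟨x, hx⟩ : ∃ x, ρ p x ≠ ρ' p x := by
    by_contra hcon
    push Not at hcon
    exact hp (Equiv.ext hcon)
  set y := ρ' p x with hy
  have hlt := p.2
  have hxy : x ≠ (ρ p).symm y := by
    intro h0
    apply hx
    rw [h0, Equiv.apply_symm_apply]
  have hadj1 : (Gr ρ).Adj (p.1.1, x) (p.1.2, ρ p x) := Or.inl ⟨hlt, rfl⟩
  have hadj2 : (Gr ρ).Adj (p.1.2, y) (p.1.1, (ρ p).symm y) :=
    Or.inr ⟨hlt, Equiv.apply_symm_apply _ _⟩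
  have hd : Disj (p.1.1, x) (p.1.2, ρ p x) (p.1.2, y) (p.1.1, (ρ p).symm y) := by
    refine ⟨?_, ?_, ?_, ?_⟩
    · intro h0
      exact hlt.ne (congrArg Prod.fst h0)
    · intro h0
      exact hxy (congrArg Prod.snd h0)
    · intro h0
      exact hx (congrArg Prod.snd h0)
    · intro h0
      exact hlt.ne' (congrArg Prod.fst h0)
  obtain ⟨s, hs⟩ := hρ _ _ _ _ hadj1 hadj2 hd
  have e1 : lev (pos s (p.1.1, x)) (pos s (p.1.2, ρ p x)) =
      lev (pos s (p.1.1, x)) (pos s (p.1.2, y)) := by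
    have := congrFun (congrFun (congrFun (congrFun h p) true) x) s
    simpa [code] using this
  have e2 : lev (pos s (p.1.2, y)) (pos s (p.1.1, (ρ p).symm y)) =
      lev (pos s (p.1.2, y)) (pos s (p.1.1, x)) := by
    have := congrFun (congrFun (congrFun (congrFun h p) false) y) s
    simp only [code, Bool.false_eq_true, if_false] at this
    rw [this, hy, Equiv.symm_apply_apply]
  refine not_sep ?_ ?_ ?_ ?_ hs
  · intro h0
    exact hlt.ne (congrArg Prod.fst (hpos s h0))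
  · intro h0
    exact hlt.ne' (congrArg Prod.fst (hpos s h0))
  · rw [e1, e2, lev_comm]
  · rw [e1]
    exact lev_spec _ _

open scoped Classical in
/-- the number of suitable graphs -/
lemma card_suit {M : ℕ} (pos : Fin t → (Fin 16 × Fin N) → ℕ)
    (hpos : ∀ s, Function.Injective (pos s)) (hM : ∀ s u, pos s u < 2 ^ M) :
    ((Finset.univ : Finset (Pr → Equiv.Perm (Fin N))).filter (fun ρ => Suit ρ pos)).card ≤
      (M + 1) ^ (240 * t * N) := by
  have hle : ∀ (ρ : Pr → Equiv.Perm (Fin N)) p β x s, code pos ρ p β x s < M + 1 := by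
    intro ρ p β x s
    have : code pos ρ p β x s ≤ M := by
      unfold code
      split_ifs
      · exact lev_le_of_lt (hM _ _) (hM _ _)
      · exact lev_le_of_lt (hM _ _) (hM _ _)
    omega
  let f : (Pr → Equiv.Perm (Fin N)) → (Pr → Bool → Fin N → Fin t → Fin (M + 1)) :=
    fun ρ p β x s => ⟨code pos ρ p β x s, hle ρ p β x s⟩
  have h1 : ((Finset.univ : Finset (Pr → Equiv.Perm (Fin N))).filter
      (fun ρ => Suit ρ pos)).card ≤
      (Finset.univ : Finset (Pr → Bool → Fin N → Fin t → Fin (M + 1))).card := by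
    apply Finset.card_le_card_of_injOn f
    · intro ρ _
      simp
    · intro ρ hρ ρ' _ heq
      simp only [Finset.coe_filter, Finset.mem_univ, true_and, Set.mem_ofPred_eq] at hρ
      apply code_inj hpos hρ
      funext p β x s
      have := congrFun (congrFun (congrFun (congrFun heq p) β) x) s
      exact congrArg Fin.val this
  refine h1.trans (le_of_eq ?_)
  have hc : Fintype.card Pr = 120 := by decide +kernel
  rw [Finset.card_univ, Fintype.card_fun, Fintype.card_fun, Fintype.card_fun, Fintype.card_fun, hc,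
    Fintype.card_bool, Fintype.card_fin, Fintype.card_fin, Fintype.card_fin, ← pow_mul, ← pow_mul,
    ← pow_mul]
  congr 1
  ring

end Q43.SepDim
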