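import Mathlib
import Pool.Agent.Q43.SepDim.Code
import Pool.Agent.H247R2.Warren

set_option autoImplicit false

/-!
# Counting: sign vectors of projections onto `t` directions in space
-/

namespace Q43.SepDim

open Finset MvPolynomial

variable {N t : ℕ}

/-- value of the projection of `x u` onto `w s` -/
def val (w : Fin t → Fin 3 → ℝ) (x : Fin 16 × Fin N → Fin 3 → ℝ) (s : Fin t)
    (u : Fin 16 × Fin N) : ℝ := ∑ c, w s c * x u c

/-- the graph is separated by the directions `w` and the points `x` -/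
def SepReal (ρ : Pr → Equiv.Perm (Fin N)) (w : Fin t → Fin 3 → ℝ)
    (x : Fin 16 × Fin N → Fin 3 → ℝ) : Prop :=
  ∀ a b c d, (Gr ρ).Adj a b → (Gr ρ).Adj c d → Disj a b c d → ∃ s : Fin t,
    (val w x s a < val w x s c ∧ val w x s a < val w x s d ∧ val w x s b < val w x s c ∧
      val w x s b < val w x s d) ∨
    (val w x s c < val w x s a ∧ val w x s d < val w x s a ∧ val w x s c < val w x s b ∧
      val w x s d < val w x s b)

/-- index set of the polynomials -/
abbrev J (t N : ℕ) := Fin t × (Fin 16 × Fin N) × (Fin 16 × Fin N)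

/-- index set of the variables -/
abbrev Va (t N : ℕ) := (Fin t × Fin 3) ⊕ ((Fin 16 × Fin N) × Fin 3)

/-- the sign vector -/
noncomputable def sg (w : Fin t → Fin 3 → ℝ) (x : Fin 16 × Fin N → Fin 3 → ℝ) : J t N → SignType :=
  fun j => SignType.sign (val w x j.1 j.2.1 - val w x j.1 j.2.2)

noncomputable def poly (j : J t N) : MvPolynomial (Va t N) ℝ :=
  ∑ c : Fin 3, X (Sum.inl (j.1, c)) * (X (Sum.inr (j.2.1, c)) - X (Sum.inr (j.2.2, c)))

lemma poly_deg (j : J t N) : (poly j).totalDegree ≤ 2 := by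
  unfold poly
  refine totalDegree_finsetSum_le (fun c _ => ?_)
  refine (totalDegree_mul _ _).trans ?_
  have h1 : (X (Sum.inl (j.1, c)) : MvPolynomial (Va t N) ℝ).totalDegree = 1 := totalDegree_X _
  have h2 : (X (Sum.inr (j.2.1, c)) - X (Sum.inr (j.2.2, c)) :
      MvPolynomial (Va t N) ℝ).totalDegree ≤ 1 := by
    refine (totalDegree_sub _ _).trans ?_
    rw [totalDegree_X, totalDegree_X, max_self]
  omega

lemma eval_poly (w : Fin t → Fin 3 → ℝ) (x : Fin 16 × Fin N → Fin 3 → ℝ) (j : J t N) :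
    eval (Sum.elim (fun p => w p.1 p.2) (fun p => x p.1 p.2)) (poly j) =
      val w x j.1 j.2.1 - val w x j.1 j.2.2 := by
  unfold poly val
  rw [map_sum, ← Finset.sum_sub_distrib]
  apply Finset.sum_congr rfl
  intro c _
  rw [map_mul, map_sub, eval_X, eval_X, eval_X]
  simp only [Sum.elim_inl, Sum.elim_inr]
  ring

/-- the index of a vertex -/
def idx (u : Fin 16 × Fin N) : ℕ := (finProdFinEquiv u : ℕ)

lemma idx_inj {u v : Fin 16 × Fin N} (h : idx u = idx v) : u = v :=
  finProdFinEquiv.injective (Fin.ext h)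

/-- the order determined by a sign vector -/
def rel (σ : J t N → SignType) (s : Fin t) (v u : Fin 16 × Fin N) : Prop :=
  σ (s, v, u) = -1 ∨ (σ (s, v, u) = 0 ∧ idx v < idx u)

lemma rel_iff (w : Fin t → Fin 3 → ℝ) (x : Fin 16 × Fin N → Fin 3 → ℝ) (s : Fin t)
    (v u : Fin 16 × Fin N) : rel (sg w x) s v u ↔
      (val w x s v < val w x s u ∨ (val w x s v = val w x s u ∧ idx v < idx u)) := by
  unfold rel sg
  simp only
  rw [sign_eq_neg_one_iff, sign_eq_zero_iff, sub_neg, sub_eq_zero]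

open scoped Classical in
/-- the positions -/
noncomputable def pos (σ : J t N → SignType) (s : Fin t) (u : Fin 16 × Fin N) : ℕ :=
  ((Finset.univ : Finset (Fin 16 × Fin N)).filter (fun v => rel σ s v u)).card

lemma pos_lt {w : Fin t → Fin 3 → ℝ} {x : Fin 16 × Fin N → Fin 3 → ℝ} {s : Fin t}
    {v u : Fin 16 × Fin N} (h : rel (sg w x) s v u) : pos (sg w x) s v < pos (sg w x) s u := by
  classical
  unfold pos
  apply Finset.card_lt_card
  rw [Finset.ssubset_iff_of_subset]
  · refine ⟨v, ?_, ?_⟩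
    · simp [h]
    · simp only [Finset.mem_filter, Finset.mem_univ, true_and]
      rw [rel_iff]
      rintro (h1 | ⟨-, h1⟩)
      · exact lt_irrefl _ h1
      · exact lt_irrefl _ h1
  · intro z hz
    simp only [Finset.mem_filter, Finset.mem_univ, true_and] at hz ⊢
    rw [rel_iff] at hz h ⊢
    rcases hz with h1 | ⟨h1, h2⟩ <;> rcases h with h3 | ⟨h3, h4⟩
    · left; linarith
    · left; linarith
    · left; linarith
    · right; exact ⟨h1.trans h3, h2.trans h4⟩

lemma pos_inj (w : Fin t → Fin 3 → ℝ) (x : Fin 16 × Fin N → Fin 3 → ℝ) (s : Fin t) :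
    Function.Injective (pos (sg w x) s) := by
  intro u v h
  by_contra hne
  have hidx : idx u ≠ idx v := fun h0 => hne (idx_inj h0)
  have h1 : rel (sg w x) s u v ∨ rel (sg w x) s v u := by
    rw [rel_iff, rel_iff]
    rcases lt_trichotomy (val w x s u) (val w x s v) with h2 | h2 | h2
    · exact Or.inl (Or.inl h2)
    · rcases lt_or_gt_of_ne hidx with h3 | h3
      · exact Or.inl (Or.inr ⟨h2, h3⟩)
      · exact Or.inr (Or.inr ⟨h2.symm, h3⟩)
    · exact Or.inr (Or.inl h2)
  rcases h1 with h1 | h1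
  · exact (pos_lt h1).ne h
  · exact (pos_lt h1).ne' h

lemma pos_bound (w : Fin t → Fin 3 → ℝ) (x : Fin 16 × Fin N → Fin 3 → ℝ) {M : ℕ}
    (hM : 16 * N ≤ 2 ^ M) (s : Fin t) (u : Fin 16 × Fin N) : pos (sg w x) s u < 2 ^ M := by
  classical
  have h1 : pos (sg w x) s u < (Finset.univ : Finset (Fin 16 × Fin N)).card := by
    unfold pos
    apply Finset.card_lt_card
    rw [Finset.ssubset_iff_of_subset (Finset.subset_univ _)]
    refine ⟨u, Finset.mem_univ _, ?_⟩
    simp only [Finset.mem_filter, Finset.mem_univ, true_and]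
    rw [rel_iff]
    rintro (h1 | ⟨-, h1⟩)
    · exact lt_irrefl _ h1
    · exact lt_irrefl _ h1
  rw [Finset.card_univ, Fintype.card_prod, Fintype.card_fin, Fintype.card_fin] at h1
  omega

lemma suit_of {ρ : Pr → Equiv.Perm (Fin N)} {w : Fin t → Fin 3 → ℝ}
    {x : Fin 16 × Fin N → Fin 3 → ℝ} (h : SepReal ρ w x) : Suit ρ (pos (sg w x)) := by
  intro a b c d hab hcd hd
  obtain ⟨s, hs⟩ := h a b c d hab hcd hd
  refine ⟨s, ?_⟩
  have key : ∀ u v, val w x s u < val w x s v → pos (sg w x) s u < pos (sg w x) s v := by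
    intro u v huv
    apply pos_lt
    rw [rel_iff]
    exact Or.inl huv
  rcases hs with ⟨h1, h2, h3, h4⟩ | ⟨h1, h2, h3, h4⟩
  · exact Or.inl ⟨key _ _ h1, key _ _ h2, key _ _ h3, key _ _ h4⟩
  · exact Or.inr ⟨key _ _ h1, key _ _ h2, key _ _ h3, key _ _ h4⟩

/-- The main counting inequality. -/
theorem count {M : ℕ} (hM : 16 * N ≤ 2 ^ M)
    (h : ∀ ρ : Pr → Equiv.Perm (Fin N), ∃ (w : Fin t → Fin 3 → ℝ)
      (x : Fin 16 × Fin N → Fin 3 → ℝ), SepReal ρ w x) :
    N.factorial ^ 120 ≤ (M + 1) ^ (240 * t * N) *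
      (4 * (t * ((16 * N) * (16 * N)) * 2) + 1) ^ (3 * t + 48 * N) := by
  classical
  choose w x hwx using h
  let σ : (Pr → Equiv.Perm (Fin N)) → (J t N → SignType) := fun ρ => sg (w ρ) (x ρ)
  have h1 : (Finset.univ : Finset (Pr → Equiv.Perm (Fin N))).card ≤
      (M + 1) ^ (240 * t * N) * (Finset.univ.image σ).card := by
    apply Finset.card_le_mul_card_image
    intro τ hτ
    rw [Finset.mem_image] at hτ
    obtain ⟨ρ₀, -, rfl⟩ := hτ
    refine le_trans (Finset.card_le_card ?_) (card_suit (pos (σ ρ₀)) (pos_inj _ _) (pos_bound _ _ hM))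
    intro ρ hρ
    rw [Finset.mem_filter] at hρ ⊢
    refine ⟨Finset.mem_univ _, ?_⟩
    rw [← hρ.2]
    exact suit_of (hwx ρ)
  have h2 := Pool.Agent.H247R2.Warren.sign_count (poly : J t N → MvPolynomial (Va t N) ℝ) 2
    poly_deg (Finset.univ.image σ) (by
      intro τ hτ
      rw [Finset.mem_image] at hτ
      obtain ⟨ρ₀, -, rfl⟩ := hτ
      refine ⟨Sum.elim (fun p => w ρ₀ p.1 p.2) (fun p => x ρ₀ p.1 p.2), ?_⟩
      intro j
      rw [eval_poly]
      rfl)
  have hcJ : Fintype.card (J t N) = t * ((16 * N) * (16 * N)) := by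
    simp [J, Fintype.card_prod]
  have hcV : Fintype.card (Va t N) = 3 * t + 48 * N := by
    simp only [Va, Fintype.card_sum, Fintype.card_prod, Fintype.card_fin]
    ring
  rw [hcJ, hcV] at h2
  have hc : Fintype.card Pr = 120 := by decide +kernel
  rw [Finset.card_univ, Fintype.card_fun, hc, Fintype.card_perm, Fintype.card_fin] at h1
  exact h1.trans (Nat.mul_le_mul_left _ h2)

/-- numeric contradiction -/
theorem numeric (t : ℕ) (ht : 1 ≤ t) : ∃ N M : ℕ, 16 * N ≤ 2 ^ M ∧
    (M + 1) ^ (240 * t * N) *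
      (4 * (t * ((16 * N) * (16 * N)) * 2) + 1) ^ (3 * t + 48 * N) < N.factorial ^ 120 := by
  obtain ⟨j, hj⟩ : ∃ j, j = 2 * t + 20 := ⟨_, rfl⟩
  have hj5 : 5 ≤ 2 ^ j := by
    calc 5 ≤ 2 ^ 20 := by norm_num
      _ ≤ 2 ^ j := Nat.pow_le_pow_right (by norm_num) (by omega)
  obtain ⟨m, hm⟩ : ∃ m, m + 5 = 2 ^ j := ⟨2 ^ j - 5, by omega⟩
  obtain ⟨N, hN⟩ : ∃ N, N = 2 ^ m := ⟨_, rfl⟩
  have h65 : 65 * (j * t) ≤ m := by
    have h1 : t < 2 ^ t := Nat.lt_two_pow_self
    have h2 : 2 ^ j = 2 ^ 20 * (2 ^ t * 2 ^ t) := by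
      rw [hj, ← pow_add, ← pow_add]
      congr 1
      ring
    obtain ⟨y, hy⟩ : ∃ y, y = 2 ^ t * 2 ^ t := ⟨_, rfl⟩
    have h3 : t * t ≤ y := by rw [hy]; exact Nat.mul_le_mul h1.le h1.le
    rw [← hy] at h2
    have h6 : 1 ≤ t * t := Nat.mul_pos ht ht
    have h4 : 1430 * (t * t) + 5 ≤ 1048576 * y := by omega
    have h5 : 65 * (j * t) ≤ 1430 * (t * t) := by
      rw [hj]
      nlinarith
    have h7 : (2:ℕ) ^ 20 = 1048576 := by norm_num
    rw [h7] at h2
    omega
  have hjt : t ≤ j * t := Nat.le_mul_of_pos_left _ (by omega)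
  have hj22 : 22 * t ≤ j * t := Nat.mul_le_mul_right _ (by omega)
  have hm7 : 7 ≤ m := by omega
  have hN16 : 16 * m ≤ N := by
    rw [hN]
    clear hN hm h65
    induction m, hm7 using Nat.le_induction with
    | base => norm_num
    | succ k hk ih =>
      rw [pow_succ]
      omega
  have hM1 : (m + 4) + 1 = 2 ^ j := by omega
  refine ⟨N, m + 4, ?_, ?_⟩
  · rw [hN, pow_add]
    omega
  rw [hM1]
  -- bound of the base
  have hbase : 4 * (t * ((16 * N) * (16 * N)) * 2) + 1 ≤ 2 ^ (9 * t + 2 * m + 8) := by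
    have h1 : 9 * t < 2 ^ (9 * t) := Nat.lt_two_pow_self
    have h2 : 2 ^ (9 * t + 2 * m + 8) = 2 ^ (9 * t) * (256 * (N * N)) := by
      rw [hN]
      rw [show 9 * t + 2 * m + 8 = 9 * t + (8 + (m + m)) by ring, pow_add, pow_add, pow_add]
      norm_num
    rw [h2]
    have hNpos : 0 < N := by rw [hN]; positivity
    have h3 : 1 ≤ N * N := Nat.mul_pos hNpos hNpos
    calc 4 * (t * ((16 * N) * (16 * N)) * 2) + 1 = 8 * t * (256 * (N * N)) + 1 := by ring
      _ ≤ 8 * t * (256 * (N * N)) + t * (256 * (N * N)) := by nlinarith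
      _ = 9 * t * (256 * (N * N)) := by ring
      _ ≤ 2 ^ (9 * t) * (256 * (N * N)) := Nat.mul_le_mul_right _ h1.le
  -- factorial
  have hfac : N ^ N ≤ N.factorial * 4 ^ N := by
    have h1 : (N:ℝ) ^ N / N.factorial ≤ Real.exp N := Real.pow_div_factorial_le_exp N (by positivity) N
    have h2 : Real.exp N ≤ 4 ^ N := by
      have h3 : Real.exp 1 ≤ 4 := by
        have := Real.exp_one_lt_d9
        linarith
      calc Real.exp N = Real.exp 1 ^ N := by rw [← Real.exp_nat_mul, mul_one]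
        _ ≤ 4 ^ N := by gcongr
    have h3 : (N:ℝ) ^ N ≤ N.factorial * 4 ^ N := by
      have h4 : (0:ℝ) < N.factorial := by exact_mod_cast Nat.factorial_pos N
      rw [div_le_iff₀ h4] at h1
      calc (N:ℝ) ^ N ≤ Real.exp N * N.factorial := h1
        _ ≤ 4 ^ N * N.factorial := by gcongr
        _ = _ := by ring
    exact_mod_cast h3
  have hfac2 : 2 ^ (120 * (m * N)) ≤ N.factorial ^ 120 * 2 ^ (240 * N) := by
    calc 2 ^ (120 * (m * N)) = (N ^ N) ^ 120 := by
          rw [hN, ← pow_mul, ← pow_mul]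
          congr 1
          ring
      _ ≤ (N.factorial * 4 ^ N) ^ 120 := Nat.pow_le_pow_left hfac 120
      _ = N.factorial ^ 120 * 2 ^ (240 * N) := by
        rw [mul_pow]
        congr 1
        rw [show 4 = 2 ^ 2 by norm_num, ← pow_mul, ← pow_mul]
        congr 1
        ring
  -- the exponents
  have hexp : 240 * (j * t * N) + (9 * t + 2 * m + 8) * (3 * t + 48 * N) + 240 * N <
      120 * (m * N) := by
    have ht_m : t ≤ m := by omega
    have e1 : (9 * t + 2 * m + 8) * (3 * t + 48 * N) =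
        27 * (t * t) + 432 * (t * N) + 6 * (m * t) + 96 * (m * N) + 24 * t + 384 * N := by ring
    rw [e1]
    have e2 : 65 * (j * t * N) ≤ m * N := by
      calc 65 * (j * t * N) = (65 * (j * t)) * N := by ring
        _ ≤ m * N := Nat.mul_le_mul_right _ h65
    have e3 : 22 * (t * N) ≤ j * t * N := by
      calc 22 * (t * N) = (22 * t) * N := by ring
        _ ≤ (j * t) * N := Nat.mul_le_mul_right _ hj22
    have e4 : N ≤ t * N := Nat.le_mul_of_pos_left _ ht
    have e5 : t * t ≤ m * m := Nat.mul_le_mul ht_m ht_m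
    have e6 : m * t ≤ m * m := Nat.mul_le_mul_left _ ht_m
    have e7 : 16 * (m * m) ≤ m * N := by
      calc 16 * (m * m) = m * (16 * m) := by ring
        _ ≤ m * N := Nat.mul_le_mul_left _ hN16
    have e8 : t ≤ t * t := Nat.le_mul_of_pos_left _ ht
    have e9 : 0 < N := by rw [hN]; positivity
    omega
  have hfinal : (2 ^ j) ^ (240 * t * N) *
      (4 * (t * ((16 * N) * (16 * N)) * 2) + 1) ^ (3 * t + 48 * N) * 2 ^ (240 * N) <
      N.factorial ^ 120 * 2 ^ (240 * N) := by
    calc (2 ^ j) ^ (240 * t * N) *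
      (4 * (t * ((16 * N) * (16 * N)) * 2) + 1) ^ (3 * t + 48 * N) * 2 ^ (240 * N)
        ≤ (2 ^ j) ^ (240 * t * N) * (2 ^ (9 * t + 2 * m + 8)) ^ (3 * t + 48 * N) *
          2 ^ (240 * N) := by
          gcongr
      _ = 2 ^ (240 * (j * t * N) + (9 * t + 2 * m + 8) * (3 * t + 48 * N) + 240 * N) := by
          rw [← pow_mul, ← pow_mul, ← pow_add, ← pow_add]
          congr 1
          ring
      _ < 2 ^ (120 * (m * N)) := Nat.pow_lt_pow_right (by norm_num) hexp
      _ ≤ _ := hfac2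
  exact Nat.lt_of_mul_lt_mul_right hfinal

end Q43.SepDim
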